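import Pool.Agent.H99.CA.Big
import Pool.Agent.H96.UL.Blk
import Pool.Agent.H96.UL.Main

/-!
Dense cliques at all scales: every dense set `U` of shifts in `[1, L]`, `L₀ ≤ L ≤ X^δ`, contains a set `S` with 26 per cent
of its elements such that almost all `m`-tuples of elements of `S` satisfy the prime tuples conjecture with the order of
magnitude of Hardy and Littlewood (as a function of `X`, times `min(1, L/log X)^K`), in every finite colouring of the
primes; and for `L ≥ C log X` the same holds inside every set of primes of positive relative density.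
-/

namespace Pool.Agent.H99.Fin.DenseCliques

open Finset

open Classical in
/-- all but at most `ε L^m` of the `m`-tuples `y` of elements of `S` satisfy `t ≤ f y` -/
def AlmostAll {m : ℕ} (ε : ℝ) (L : ℕ) (S : Finset ℕ) (t : ℝ) (f : (Fin m → ℕ) → ℕ) : Prop :=
  (((Fintype.piFinset fun _ : Fin m => S).filter fun y => (f y : ℝ) < t).card : ℝ) ≤ ε * (L : ℝ) ^ m

open Classical in
/-- the number of the positive integers `N ≤ X` for which all the `N + Q y_i` are in `A` -/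
noncomputable def countIn {m : ℕ} (X Q : ℕ) (A : Set ℕ) (y : Fin m → ℕ) : ℕ :=
  ((Icc 1 X).filter fun N => ∀ i, N + Q * y i ∈ A).card

open Classical in
/-- the number of the positive integers `N ≤ X` for which all the `N + Q y_i` are primes of the same colour -/
noncomputable def countMono {m r : ℕ} (X Q : ℕ) (χ : ℕ → Fin r) (y : Fin m → ℕ) : ℕ :=
  ((Icc 1 X).filter fun N => ∀ i, (N + Q * y i).Prime ∧ ∀ j, χ (N + Q * y i) = χ (N + Q * y j)).card

open Classical in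
/-- **Theorem.** -/
theorem result (m r : ℕ) (α ε : ℝ) (hm : 1 ≤ m) (hr : 1 ≤ r) (hα : 0 < α) (hα1 : α ≤ 1) (hε : 0 < ε) :
    ∃ K q : ℕ, 0 < q ∧ ∀ Q : ℕ, 0 < Q → q ∣ Q → ∃ (c C δ : ℝ) (L₀ X₀ : ℕ), 0 < c ∧ 0 < C ∧ 0 < δ ∧
      ∀ X L : ℕ, X₀ ≤ X → L₀ ≤ L → (L : ℝ) ≤ (X : ℝ) ^ δ → ∀ U : Finset ℕ, U ⊆ Icc 1 L → ε * L ≤ U.card →
        (∀ χ : ℕ → Fin r, ∃ S : Finset ℕ, S ⊆ U ∧ (13 / (50 * r) - ε) * (U.card : ℝ) ≤ S.card ∧
          AlmostAll (m := m) ε L S (c * (min 1 ((L : ℝ) / Real.log X)) ^ K * (X / Real.log X ^ m))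
            (countMono X Q χ)) ∧
        (C * Real.log X ≤ L → ∀ A : Finset ℕ, (∀ p ∈ A, p.Prime ∧ p ≤ X) → α * X / Real.log X ≤ A.card →
          ∃ S : Finset ℕ, S ⊆ U ∧ (13 * α / 50 - ε) * (U.card : ℝ) ≤ S.card ∧
          AlmostAll (m := m) ε L S (c * (X / Real.log X ^ m)) (countIn X Q A)) := by
  obtain ⟨K, q1, hq1, h1⟩ := Pool.Agent.H99.CA.clq_all
    (Pool.Agent.H96.UL.blkU_of_medU Pool.Agent.H96.UL.med_uniform) m r hm hr ε hε
  obtain ⟨q2, hq2, h2⟩ := Pool.Agent.H99.RO.part1 m hm α ε hα hα1 hε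
  refine ⟨K, q1 * q2, Nat.mul_pos hq1 hq2, fun Q hQ hqQ => ?_⟩
  obtain ⟨c1, δ1, L1, X1, hc1, hδ1, h1⟩ := h1 Q hQ ((Dvd.intro _ rfl).trans hqQ)
  obtain ⟨c2, C, δ2, x2, hc2, hC, hδ2, h2⟩ := h2 Q hQ ((Dvd.intro_left _ rfl).trans hqQ)
  obtain ⟨X2, hX2⟩ := exists_nat_ge (max x2 2)
  refine ⟨min c1 c2, C, min δ1 δ2, L1, max X1 X2, by positivity, hC, by positivity,
    fun X L hX hL hLδ U hU hUc => ⟨fun χ => ?_, fun hCL A hA hAc => ?_⟩⟩
  all_goals
    have d1 : X1 ≤ X := (le_max_left _ _).trans hX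
    have d2 : X2 ≤ X := (le_max_right _ _).trans hX
    have d3 : max x2 2 ≤ (X : ℝ) := hX2.trans (by exact_mod_cast d2)
    have d4 : x2 ≤ (X : ℝ) := (le_max_left _ _).trans d3
    have d5 : (2 : ℝ) ≤ (X : ℝ) := (le_max_right _ _).trans d3
    have hlog : 0 < Real.log X := Real.log_pos (by linarith)
  · obtain ⟨S, hS, hSc, hS2⟩ := h1 X d1 L hL (hLδ.trans (Real.rpow_le_rpow_of_exponent_le (by linarith)
      (min_le_left _ _))) χ U hU hUc
    refine ⟨S, hS, hSc, ?_⟩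
    unfold AlmostAll
    refine le_trans ?_ hS2
    rw [Nat.cast_le]
    apply card_le_card
    intro y hy
    rw [mem_filter] at hy ⊢
    refine ⟨hy.1, lt_of_lt_of_le hy.2 ?_⟩
    apply mul_le_mul_of_nonneg_right _ (by positivity)
    apply mul_le_mul_of_nonneg_right (min_le_left _ _)
    exact pow_nonneg (le_min zero_le_one (by positivity)) _
  · obtain ⟨S, hS, hSc, hS2⟩ := h2 X d4 A (fun p hp => ⟨(hA p hp).1, by exact_mod_cast (hA p hp).2⟩) hAc L hCL
      (hLδ.trans (Real.rpow_le_rpow_of_exponent_le (by linarith) (min_le_right _ _))) U hU hUc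
    refine ⟨S, hS, hSc, ?_⟩
    unfold AlmostAll
    refine le_trans ?_ hS2
    rw [Nat.cast_le]
    apply card_le_card
    intro y hy
    rw [mem_filter] at hy ⊢
    refine ⟨hy.1, ?_⟩
    have h3 : min c1 c2 * (X / Real.log X ^ m) ≤ c2 * X / Real.log X ^ m := by
      rw [mul_div_assoc]
      exact mul_le_mul_of_nonneg_right (min_le_right _ _) (by positivity)
    refine lt_of_le_of_lt ?_ (lt_of_lt_of_le hy.2 h3)
    apply le_of_eq
    unfold Pool.Agent.H99.RO.cnt countIn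
    rw [Nat.floor_natCast]
    simp only [mem_coe]

end Pool.Agent.H99.Fin.DenseCliques
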