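import Pool.Agent.H99.RO.Mg
import Pool.Agent.H99.RO.Mg2
import Pool.Agent.H21.GC.Three
import Pool.Agent.H96.UL.Blk
import Pool.Agent.H96.UL.Main

/-!
Pairs and tuples of primes with the order of magnitude of the Hardy-Littlewood conjecture, at ALL SCALES:
the shifts run through `[1, L]` for any `L` between a constant `L₀` and a power `X^δ` of `X`.
-/

namespace Pool.Agent.H99.Fin.AllScales

open Finset

/-- `c min(1, L/log X)^K X/(log X)^m` -/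
noncomputable def rate (c : ℝ) (K m L X : ℕ) : ℝ :=
  c * (min 1 ((L : ℝ) / Real.log X)) ^ K * (X / Real.log X ^ m)

open Classical in
/-- **Theorem.** (1) pairs: a third of all even numbers at every scale (and consecutive primes, at scales up to `lam log X`);
(2) monochromatic tuples; (3) `k` successive gaps between primes. -/
theorem result :
    (∃ K : ℕ, ∀ ε : ℝ, 0 < ε → ∃ (c lam δ : ℝ) (L₀ X₀ : ℕ), 0 < c ∧ 0 < lam ∧ 0 < δ ∧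
      ∀ X L : ℕ, X₀ ≤ X → L₀ ≤ L → (L : ℝ) ≤ (X : ℝ) ^ δ →
      (1 / 3 - ε) * ((L : ℝ) / 2) ≤ (((Icc 1 L).filter fun h => Even h ∧ rate c K 2 L X ≤
        (((Icc 1 X).filter fun N => N.Prime ∧ (N + h).Prime ∧ ((L : ℝ) ≤ lam * Real.log X →
          ∀ t : ℕ, N < t → t < N + h → ¬ t.Prime)).card : ℝ)).card : ℝ)) ∧
    (∀ (k r : ℕ) (ε : ℝ), 1 ≤ k → 1 ≤ r → 0 < ε → ∃ K q : ℕ, 0 < q ∧ ∀ Q : ℕ, 0 < Q → q ∣ Q →
      ∃ (c δ : ℝ) (L₀ X₀ : ℕ), 0 < c ∧ 0 < δ ∧ ∀ X L : ℕ, X₀ ≤ X → L₀ ≤ L → (L : ℝ) ≤ (X : ℝ) ^ δ →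
      ∀ χ : ℕ → Fin r, ((13 / (50 * r) : ℝ) ^ k - ε) * (L : ℝ) ^ k ≤
        (((Fintype.piFinset fun _ : Fin k => Icc 1 L).filter fun n => rate c K (k + 1) L X ≤
          (((Icc 1 X).filter fun N => N.Prime ∧ ∀ i, (N + Q * n i).Prime ∧
            χ (N + Q * n i) = χ N).card : ℝ)).card : ℝ)) ∧
    (∀ k : ℕ, ∃ (κ : ℝ) (K q : ℕ), 0 < κ ∧ 0 < q ∧ ∀ Q : ℕ, 0 < Q → q ∣ Q →
      ∃ (c lam : ℝ) (L₀ X₀ : ℕ), 0 < c ∧ 0 < lam ∧ ∀ X L : ℕ, X₀ ≤ X → L₀ ≤ L →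
      (L : ℝ) ≤ lam * Real.log X → κ * (L : ℝ) ^ k ≤
        (((Fintype.piFinset fun _ : Fin k => Icc 1 L).filter fun n => rate c K (k + 1) L X ≤
          (((range (X + 1)).filter fun j => Nat.nth Nat.Prime j ≤ X ∧ ∀ i : Fin k,
            Nat.nth Nat.Prime (j + i + 1) = Nat.nth Nat.Prime (j + i) + Q * n i).card : ℝ)).card : ℝ)) := by
  have hU : Pool.Agent.H61.UL.BlkU :=
    Pool.Agent.H96.UL.blkU_of_medU Pool.Agent.H96.UL.med_uniform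
  refine ⟨?_, fun k r ε hk hr hε => ?_, fun k => ?_⟩
  · obtain ⟨K, h⟩ := Pool.Agent.H99.RO.pairs_all hU
    refine ⟨K, fun ε hε => ?_⟩
    obtain ⟨c, lam, δ, L0, X0, hc, hl, hδ, h⟩ := h ε hε
    exact ⟨c, lam, δ, L0, X0, hc, hl, hδ, fun X L hX hL hLδ => h X hX L hL hLδ⟩
  · obtain ⟨K, q, hq, h⟩ := Pool.Agent.H99.RO.tuples_all hU k r hk hr ε hε
    refine ⟨K, q, hq, fun Q hQ hqQ => ?_⟩
    obtain ⟨c, δ, L0, X0, hc, hδ, h⟩ := h Q hQ hqQ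
    exact ⟨c, δ, L0, X0, hc, hδ, fun X L hX hL hLδ χ => h X hX L hL hLδ χ⟩
  · obtain ⟨κ, K, q, hκ, hq, h⟩ := Pool.Agent.H21.GC.three hU k
    refine ⟨κ, K, q, hκ, hq, fun Q hQ hqQ => ?_⟩
    obtain ⟨c, lam, L0, X0, hc, hl, h⟩ := h Q hQ hqQ
    exact ⟨c, lam, L0, X0, hc, hl, fun X L hX hL hLl => h X hX L hL hLl⟩

end Pool.Agent.H99.Fin.AllScales
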