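import Pool.Agent.H99.HP.Cons

/-!
Almost all `k`-tuples of a Bohr set of bounded rank satisfy the prime tuples conjecture with the order of magnitude of Hardy and
Littlewood, at every scale `L₀ ≤ L ≤ X^δ` and in every finite colouring of the primes; for `L ≤ λ log X` some of the primes may be
taken consecutive; for `L ≥ C log X` also inside every set of primes of positive relative density.
-/

namespace Pool.Agent.H99.Fin.BohrAllScales

open Finset

/-- the Bohr set `{1 ≤ h ≤ L : ‖θ_i h‖ ≤ 1/4 for all i}`, where `‖x‖` is the distance from `x` to the nearest integer -/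
noncomputable def Bohr (L : ℕ) {D : ℕ} (θ : Fin D → ℝ) : Finset ℕ :=
  (Icc 1 L).filter fun h => ∀ i, |θ i * h - round (θ i * h)| ≤ 1 / 4

/-- all the `N + a_j`, `0 ≤ j ≤ k` (where `a_0 = 0`), are primes of colour `i`; and, if `cons` holds, no prime `q` of colour `i`
satisfies `N + a_t < q < N + a_(t+1)` with `t ∈ G` -/
def Pattern {k r : ℕ} (χ : ℕ → Fin r) (i : Fin r) (cons : Prop) (G : Finset (Fin k)) (a : Fin k → ℕ) (N : ℕ) : Prop :=
  (∀ j, (N + (Fin.cons 0 a : Fin (k + 1) → ℕ) j).Prime ∧ χ (N + (Fin.cons 0 a : Fin (k + 1) → ℕ) j) = i) ∧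
  (cons → ∀ t ∈ G, ∀ q : ℕ, N + (Fin.cons 0 a : Fin (k + 1) → ℕ) t.castSucc < q →
    q < N + (Fin.cons 0 a : Fin (k + 1) → ℕ) t.succ → ¬ (q.Prime ∧ χ q = i))

open Classical in
/-- the number of the `N`, `1 ≤ N ≤ X`, with `Pattern` -/
noncomputable def countPattern {k r : ℕ} (X : ℕ) (χ : ℕ → Fin r) (i : Fin r) (cons : Prop) (G : Finset (Fin k))
    (a : Fin k → ℕ) : ℕ :=
  ((Icc 1 X).filter fun N => Pattern χ i cons G a N).card

open Classical in
/-- the number of the `N`, `1 ≤ N ≤ X`, for which `N` and all the `N + a_i` are in `A` -/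
noncomputable def count {k : ℕ} (X : ℕ) (A : Set ℕ) (a : Fin k → ℕ) : ℕ :=
  ((Icc 1 X).filter fun N => N ∈ A ∧ ∀ i, N + a i ∈ A).card

open Classical in
/-- `P a` holds for all but at most `ε |B|^k` of the `k`-tuples `a` of elements of `B` -/
def Most {k : ℕ} (ε : ℝ) (B : Finset ℕ) (P : (Fin k → ℕ) → Prop) : Prop :=
  (((Fintype.piFinset fun _ : Fin k => B).filter fun a => ¬ P a).card : ℝ) ≤ ε * (B.card : ℝ) ^ k

/-- `G` has no two adjacent elements -/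
def NoAdjacent {k : ℕ} (G : Finset (Fin k)) : Prop := ∀ t ∈ G, ∀ u ∈ G, (t : ℕ) + 1 ≠ u

/-- **Theorem.** -/
theorem result (k r : ℕ) (α ε : ℝ) (hk : 1 ≤ k) (hr : 1 ≤ r) (hα : 0 < α) (hα1 : α ≤ 1) (hε : 0 < ε) (hε1 : ε ≤ 1) :
    ∃ (D K : ℕ) (κ c C lam δ : ℝ) (L₀ X₀ : ℕ), 0 < κ ∧ 0 < c ∧ 0 < C ∧ 0 < lam ∧ 0 < δ ∧
      ∀ X L : ℕ, X₀ ≤ X → L₀ ≤ L → (L : ℝ) ≤ (X : ℝ) ^ δ →
        (∀ χ : ℕ → Fin r, ∃ θ : Fin D → ℝ, κ * L ≤ (Bohr L θ).card ∧
          Most (k := k) ε (Bohr L θ) fun a => StrictMono a → ∀ G : Finset (Fin k), NoAdjacent G → ∃ i : Fin r,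
            c * (min 1 ((L : ℝ) / Real.log X)) ^ K * (X / Real.log X ^ (k + 1)) ≤
              countPattern X χ i ((L : ℝ) ≤ lam * Real.log X) G a) ∧
        (C * Real.log X ≤ L → ∀ A : Finset ℕ, (∀ p ∈ A, p.Prime ∧ p ≤ X) → α * X / Real.log X ≤ A.card →
          ∃ θ : Fin D → ℝ, κ * L ≤ (Bohr L θ).card ∧
          Most (k := k) ε (Bohr L θ) fun a => c * (X / Real.log X ^ (k + 1)) ≤ count X (A : Set ℕ) a) :=
  Pool.Agent.H99.HP.mainP k r α ε hk hr hα hα1 hε hε1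

end Pool.Agent.H99.Fin.BohrAllScales
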