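import Pool.Agent.H99.DL.Asm
import Pool.Agent.H99.DL.Brg
import Pool.Agent.H96.BH.CorD

/-!
Almost every `k`-tuple of natural numbers has a bounded dilate which satisfies the prime tuples conjecture with the order of
magnitude of Hardy and Littlewood, at every scale `L₀ ≤ L ≤ X^δ` and in every finite colouring of the primes; for `L ≥ C log X` also
inside every set of primes of positive relative density.
-/

namespace Pool.Agent.H99.Fin.DilatesAllScales

open Finset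

open Classical in
/-- the number of the `N`, `1 ≤ N ≤ X`, for which `N` and all the `N + m a_i` are in `A` -/
noncomputable def count {k : ℕ} (X : ℕ) (A : Set ℕ) (m : ℕ) (a : Fin k → ℕ) : ℕ :=
  ((Icc 1 X).filter fun N => N ∈ A ∧ ∀ i, N + m * a i ∈ A).card

open Classical in
/-- `P a` holds for all but at most `ε L^k` of the `k`-tuples `a` of natural numbers between `1` and `L` -/
def AlmostAll (k L : ℕ) (ε : ℝ) (P : (Fin k → ℕ) → Prop) : Prop :=
  (((Fintype.piFinset fun _ : Fin k => Icc 1 L).filter fun a => ¬ P a).card : ℝ) ≤ ε * (L : ℝ) ^ k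

/-- **Theorem.** -/
theorem result (k r : ℕ) (α ε : ℝ) (hr : 1 ≤ r) (hα : 0 < α) (hα1 : α ≤ 1) (hε : 0 < ε) (hε1 : ε ≤ 1) :
    ∃ (M K : ℕ) (c C δ : ℝ) (L₀ X₀ : ℕ), 0 < c ∧ 0 < C ∧ 0 < δ ∧
      ∀ X L : ℕ, X₀ ≤ X → L₀ ≤ L → (L : ℝ) ≤ (X : ℝ) ^ δ →
        (∀ χ : ℕ → Fin r, AlmostAll k L ε fun a => ∃ m, 1 ≤ m ∧ m ≤ M ∧ ∃ i : Fin r,
            c * (min 1 ((L : ℝ) / Real.log X)) ^ K * (X / Real.log X ^ (k + 1)) ≤
              count X {p : ℕ | p.Prime ∧ χ p = i} m a) ∧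
        (C * Real.log X ≤ L → ∀ A : Finset ℕ, (∀ p ∈ A, p.Prime ∧ p ≤ X) → α * X / Real.log X ≤ A.card →
          AlmostAll k L ε fun a => ∃ m, 1 ≤ m ∧ m ≤ M ∧ c * (X / Real.log X ^ (k + 1)) ≤ count X (A : Set ℕ) m a) :=
  Pool.Agent.H99.DL.mainD (Pool.Agent.H99.DL.corD_of Pool.Agent.H96.BH.corD) k r α ε hr hα hα1 hε hε1

end Pool.Agent.H99.Fin.DilatesAllScales
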