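import Pool.Agent.H99.RO.Mg
import Pool.Agent.H96.UL.Blk
import Pool.Agent.H96.UL.Main

/-!
A third of all even numbers at every scale: for every `L` between a constant `L₀` and a power `X^δ` of `X`, at least
`(1/3 - ε) L/2` of the even `h ≤ L` are differences `p - N` of primes with the order of magnitude of Hardy and Littlewood
(as functions of `X`, times `min(1, L/log X)^K`), and of CONSECUTIVE primes if `L ≤ lam log X`.
-/

namespace Pool.Agent.H99.Fin.PairsAllScales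

open Finset

open Classical in
/-- **Theorem.** `K` is absolute. -/
theorem result : ∃ K : ℕ, ∀ ε : ℝ, 0 < ε → ∃ (c lam δ : ℝ) (L₀ X₀ : ℕ), 0 < c ∧ 0 < lam ∧ 0 < δ ∧
    ∀ X L : ℕ, X₀ ≤ X → L₀ ≤ L → (L : ℝ) ≤ (X : ℝ) ^ δ →
    (1 / 3 - ε) * ((L : ℝ) / 2) ≤ (((Icc 1 L).filter fun h => Even h ∧
      c * (min 1 ((L : ℝ) / Real.log X)) ^ K * (X / Real.log X ^ 2) ≤
        (((Icc 1 X).filter fun N => N.Prime ∧ (N + h).Prime ∧ ((L : ℝ) ≤ lam * Real.log X →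
          ∀ t : ℕ, N < t → t < N + h → ¬ t.Prime)).card : ℝ)).card : ℝ) := by
  obtain ⟨K, h⟩ := Pool.Agent.H99.RO.pairs_all
    (Pool.Agent.H96.UL.blkU_of_medU Pool.Agent.H96.UL.med_uniform)
  refine ⟨K, fun ε hε => ?_⟩
  obtain ⟨c, lam, δ, L0, X0, hc, hl, hδ, h⟩ := h ε hε
  exact ⟨c, lam, δ, L0, X0, hc, hl, hδ, fun X L hX hL hLδ => h X hX L hL hLδ⟩

end Pool.Agent.H99.Fin.PairsAllScales
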